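import Mathlib

namespace Pool.Agent.R945.CU

open Finset

/-- the zero-sum sub-pairs / sub-triples of a 6-tuple of integers -/
def Z (k : ℕ) (v : Fin 6 → ℤ) : Finset (Finset (Fin 6)) :=
  ((univ : Finset (Fin 6)).powersetCard k).filter (fun A => ∑ i ∈ A, v i = 0)

/-- ordered pairs of disjoint zero-sum pairs -/
def DD (v : Fin 6 → ℤ) : Finset (Finset (Fin 6) × Finset (Fin 6)) :=
  ((Z 2 v) ×ˢ (Z 2 v)).filter (fun x => Disjoint x.1 x.2)

lemma mem_Z {k : ℕ} {v : Fin 6 → ℤ} {A : Finset (Fin 6)} :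
    A ∈ Z k v ↔ A.card = k ∧ ∑ i ∈ A, v i = 0 := by
  simp [Z, mem_powersetCard]

lemma mem_DD {v : Fin 6 → ℤ} {x : Finset (Fin 6) × Finset (Fin 6)} :
    x ∈ DD v ↔ x.1 ∈ Z 2 v ∧ x.2 ∈ Z 2 v ∧ Disjoint x.1 x.2 := by
  simp [DD, and_assoc]

lemma compl_sum {v : Fin 6 → ℤ} (h0 : ∑ i, v i = 0) (A : Finset (Fin 6)) :
    ∑ i ∈ Aᶜ, v i = - ∑ i ∈ A, v i := by
  have := Finset.sum_add_sum_compl A v
  rw [h0] at this; linarith

lemma card_compl6 (A : Finset (Fin 6)) : Aᶜ.card = 6 - A.card := by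
  rw [Finset.card_compl]; simp

/-- third pair -/
lemma third {v : Fin 6 → ℤ} (h0 : ∑ i, v i = 0) {A B : Finset (Fin 6)}
    (hA : A ∈ Z 2 v) (hB : B ∈ Z 2 v) (hd : Disjoint A B) : (A ∪ B)ᶜ ∈ Z 2 v := by
  rw [mem_Z] at *
  refine ⟨?_, ?_⟩
  · rw [card_compl6, Finset.card_union_of_disjoint hd, hA.1, hB.1]
  · rw [compl_sum h0, Finset.sum_union hd, hA.2, hB.2]; simp

lemma disj_third {A B : Finset (Fin 6)} : Disjoint A (A ∪ B)ᶜ := by
  rw [Finset.disjoint_left]; intro a ha; simp [ha]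

lemma disj_third' {A B : Finset (Fin 6)} : Disjoint B (A ∪ B)ᶜ := by
  rw [Finset.disjoint_left]; intro a ha; simp [ha]

end Pool.Agent.R945.CU
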