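import Pool.Agent.R945.CU.A

namespace Pool.Agent.R945.CU

open Finset

lemma card_DD (v : Fin 6 → ℤ) :
    (DD v).card = ∑ g ∈ Z 2 v, ∑ h ∈ Z 2 v, if Disjoint g h then 1 else 0 := by
  rw [DD, card_filter, sum_product]

/-- if some perfect matching consists of cancelling pairs -/
lemma P1 {v : Fin 6 → ℤ} (h0 : ∑ i, v i = 0) (hne : (DD v).Nonempty) :
    3 * (Z 2 v).card ≤ (DD v).card + 3 := by
  obtain ⟨⟨A, B⟩, hAB⟩ := hne
  rw [mem_DD] at hAB
  obtain ⟨hA, hB, hd⟩ := hAB
  simp only at hA hB hd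
  have hC := third h0 hA hB hd
  set C := (A ∪ B)ᶜ with hCdef
  have hAC : Disjoint A C := disj_third
  have hBC : Disjoint B C := disj_third'
  have cA : A.card = 2 := (mem_Z.1 hA).1
  have cB : B.card = 2 := (mem_Z.1 hB).1
  have cC : C.card = 2 := (mem_Z.1 hC).1
  have neOf : ∀ {X Y : Finset (Fin 6)}, X.card = 2 → Disjoint X Y → X ≠ Y := by
    intro X Y hX hXY h
    rw [← h, Finset.disjoint_self_iff_empty] at hXY
    rw [hXY] at hX; simp at hX
  have hABn := neOf cA hd
  have hACn := neOf cA hAC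
  have hBCn := neOf cB hBC
  set M : Finset (Finset (Fin 6)) := {A, B, C} with hM
  have cM : M.card = 3 := by
    rw [hM, card_insert_of_notMem, card_insert_of_notMem, card_singleton]
    · simpa using hBCn
    · simp [hABn, hACn]
  have hMZ : M ⊆ Z 2 v := by
    intro x hx
    simp only [hM, mem_insert, mem_singleton] at hx
    rcases hx with rfl | rfl | rfl <;> assumption
  -- every pair is disjoint from some element of M
  have hex : ∀ h : Finset (Fin 6), h.card = 2 → ∃ m ∈ M, Disjoint m h := by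
    intro h hh
    by_contra hcon
    push Not at hcon
    have h1 := hcon A (by simp [hM])
    have h2 := hcon B (by simp [hM])
    have h3 := hcon C (by simp [hM])
    rw [Finset.not_disjoint_iff] at h1 h2 h3
    obtain ⟨a, ha, ha'⟩ := h1
    obtain ⟨b, hb, hb'⟩ := h2
    obtain ⟨c, hc, hc'⟩ := h3
    have hab : a ≠ b := fun h => Finset.disjoint_left.1 hd ha (h ▸ hb)
    have hac : a ≠ c := fun h => Finset.disjoint_left.1 hAC ha (h ▸ hc)
    have hbc : b ≠ c := fun h => Finset.disjoint_left.1 hBC hb (h ▸ hc)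
    have hsub : ({a, b, c} : Finset (Fin 6)) ⊆ h := by
      intro x hx
      simp only [mem_insert, mem_singleton] at hx
      rcases hx with rfl | rfl | rfl <;> assumption
    have h3c : ({a, b, c} : Finset (Fin 6)).card = 3 := by
      rw [card_insert_of_notMem, card_insert_of_notMem, card_singleton]
      · simpa using hbc
      · simp [hab, hac]
    have := card_le_card hsub
    omega
  -- sum over g in M
  have hMs : 6 + (Z 2 v \ M).card ≤ ∑ g ∈ M, ∑ h ∈ Z 2 v, if Disjoint g h then 1 else 0 := by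
    rw [sum_comm, ← sum_sdiff hMZ]
    have e1 : (Z 2 v \ M).card ≤ ∑ x ∈ Z 2 v \ M, ∑ y ∈ M, if Disjoint y x then 1 else 0 := by
      rw [card_eq_sum_ones]
      apply sum_le_sum
      intro x hx
      rw [mem_sdiff] at hx
      obtain ⟨m, hm, hmd⟩ := hex x (mem_Z.1 hx.1).1
      calc 1 = if Disjoint m x then 1 else 0 := by simp [hmd]
        _ ≤ _ := single_le_sum (f := fun y => if Disjoint y x then 1 else 0) (by intros; positivity) hm
    have e2 : 6 ≤ ∑ x ∈ M, ∑ y ∈ M, if Disjoint y x then 1 else 0 := by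
      have hs : ∀ f : Finset (Fin 6) → ℕ, ∑ x ∈ M, f x = f A + f B + f C := by
        intro f
        rw [hM, sum_insert, sum_insert, sum_singleton]
        · ring
        · simpa using hBCn
        · simp [hABn, hACn]
      rw [hs, hs, hs, hs]
      have : (if Disjoint B A then 1 else 0) = 1 := by simp [hd.symm]
      have : (if Disjoint C A then 1 else 0) = 1 := by simp [hAC.symm]
      have : (if Disjoint C B then 1 else 0) = 1 := by simp [hBC.symm]
      have : (if Disjoint A B then 1 else 0) = 1 := by simp [hd]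
      have : (if Disjoint A C then 1 else 0) = 1 := by simp [hAC]
      have : (if Disjoint B C then 1 else 0) = 1 := by simp [hBC]
      omega
    omega
  have hZs : 2 * (Z 2 v \ M).card ≤ ∑ g ∈ Z 2 v \ M, ∑ h ∈ Z 2 v, if Disjoint g h then 1 else 0 := by
    rw [mul_comm, ← smul_eq_mul, ← sum_const]
    apply sum_le_sum
    intro g hg
    rw [mem_sdiff] at hg
    obtain ⟨m, hm, hmd⟩ := hex g (mem_Z.1 hg.1).1
    have hmZ := hMZ hm
    have ht := third h0 hg.1 hmZ hmd.symm
    have hne : m ≠ (g ∪ m)ᶜ := neOf (mem_Z.1 hmZ).1 disj_third'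
    have hsub : ({m, (g ∪ m)ᶜ} : Finset (Finset (Fin 6))) ⊆ Z 2 v := by
      intro x hx
      simp only [mem_insert, mem_singleton] at hx
      rcases hx with rfl | rfl <;> assumption
    calc 2 = ∑ h ∈ ({m, (g ∪ m)ᶜ} : Finset (Finset (Fin 6))), if Disjoint g h then 1 else 0 := by
          rw [sum_insert (by simpa using hne), sum_singleton, if_pos hmd.symm, if_pos disj_third]
      _ ≤ _ := sum_le_sum_of_subset hsub
  rw [card_DD, ← sum_sdiff hMZ]
  have hc : (Z 2 v \ M).card + 3 = (Z 2 v).card := by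
    rw [card_sdiff_of_subset hMZ, cM]
    have := card_le_card hMZ
    omega
  omega

/-- all absolute values are comparable, except for values of absolute value one -/
def SemiTight (v : Fin 6 → ℤ) : Prop := ∀ a b, |v a| = 1 ∨ |v b| ≤ 1000 * |v a|

lemma compl_mem_Z3 {v : Fin 6 → ℤ} (h0 : ∑ i, v i = 0) {A : Finset (Fin 6)} (hA : A ∈ Z 3 v) :
    Aᶜ ∈ Z 3 v := by
  rw [mem_Z] at *
  exact ⟨by rw [card_compl6, hA.1], by rw [compl_sum h0, hA.2]; simp⟩

lemma not_sub {v : Fin 6 → ℤ} (hv : ∀ i, v i ≠ 0) {A B : Finset (Fin 6)}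
    (hA : A ∈ Z 3 v) (hB : B ∈ Z 2 v) : ¬ B ⊆ A := by
  intro hsub
  rw [mem_Z] at *
  have h1 : (A \ B).card = 1 := by rw [card_sdiff_of_subset hsub]; omega
  obtain ⟨c, hc⟩ := card_eq_one.1 h1
  have h2 := sum_sdiff hsub (f := v)
  rw [hc, hA.2, hB.2, sum_singleton] at h2
  exact hv c (by linarith)

lemma bad2 {v : Fin 6 → ℤ} (hv : ∀ i, v i ≠ 0) (h0 : ∑ i, v i = 0)
    (H3 : ∀ A ∈ Z 3 v, ∀ a ∈ A, ∀ b ∈ A, |v b| ≤ 10 * |v a|)
    {A B : Finset (Fin 6)} (hA : A ∈ Z 3 v) (hB : B ∈ Z 2 v) : SemiTight v := by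
  have n1 := not_sub hv hA hB
  have n2 := not_sub hv (compl_mem_Z3 h0 hA) hB
  obtain ⟨b, hbB, hbA⟩ := not_subset.1 n1
  obtain ⟨a, haB, haA⟩ := not_subset.1 n2
  have haA' : a ∈ A := by simpa using haA
  have hbA' : b ∈ Aᶜ := by simpa using hbA
  have hab : a ≠ b := fun h => hbA (h ▸ haA')
  have hBe : B = {a, b} := by
    symm
    apply eq_of_subset_of_card_le
    · intro x hx
      simp only [mem_insert, mem_singleton] at hx
      rcases hx with rfl | rfl <;> assumption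
    · rw [(mem_Z.1 hB).1, card_pair hab]
  have hs := (mem_Z.1 hB).2
  rw [hBe, sum_pair hab] at hs
  have habs : |v b| = |v a| := by
    have : v b = - v a := by linarith
    rw [this, abs_neg]
  have hkey : ∀ i, |v i| ≤ 10 * |v a| ∧ |v a| ≤ 10 * |v i| := by
    intro i
    by_cases hi : i ∈ A
    · exact ⟨H3 A hA a haA' i hi, H3 A hA i hi a haA'⟩
    · have hi' : i ∈ Aᶜ := by simpa using hi
      have h1 := H3 _ (compl_mem_Z3 h0 hA) b hbA' i hi'
      have h2 := H3 _ (compl_mem_Z3 h0 hA) i hi' b hbA'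
      rw [habs] at h1 h2
      exact ⟨h1, h2⟩
  intro i j
  right
  have h1 := hkey i
  have h2 := hkey j
  linarith [h1.1, h1.2, h2.1, h2.2, abs_nonneg (v i)]

lemma bad3 {v : Fin 6 → ℤ} (h0 : ∑ i, v i = 0)
    (H3 : ∀ A ∈ Z 3 v, ∀ a ∈ A, ∀ b ∈ A, |v b| ≤ 10 * |v a|)
    (hc : 2 < (Z 3 v).card) : SemiTight v := by
  obtain ⟨A, hA⟩ : (Z 3 v).Nonempty := by rw [← card_pos]; omega
  have : ∃ B ∈ Z 3 v, B ∉ ({A, Aᶜ} : Finset (Finset (Fin 6))) := by
    by_contra hcon
    push Not at hcon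
    have := card_le_card (show Z 3 v ⊆ {A, Aᶜ} from hcon)
    have h2 : ({A, Aᶜ} : Finset (Finset (Fin 6))).card ≤ 2 := card_le_two
    omega
  obtain ⟨B, hB, hBn⟩ := this
  simp only [mem_insert, mem_singleton, not_or] at hBn
  have cA := (mem_Z.1 hA).1
  have cB := (mem_Z.1 hB).1
  have n1 : ¬ B ⊆ A := fun h => hBn.1 (eq_of_subset_of_card_le h (by omega))
  have n2 : ¬ B ⊆ Aᶜ := fun h => hBn.2 (eq_of_subset_of_card_le h (by rw [card_compl6]; omega))
  obtain ⟨b, hbB, hbA⟩ := not_subset.1 n1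
  obtain ⟨a, haB, haA⟩ := not_subset.1 n2
  have haA' : a ∈ A := by simpa using haA
  have hbA' : b ∈ Aᶜ := by simpa using hbA
  have hab := H3 B hB a haB b hbB
  have hba := H3 B hB b hbB a haB
  have hA' := compl_mem_Z3 h0 hA
  intro i j
  right
  by_cases hi : i ∈ A <;> by_cases hj : j ∈ A
  · have := H3 A hA i hi j hj
    linarith [abs_nonneg (v i)]
  · have hj' : j ∈ Aᶜ := by simpa using hj
    have h1 := H3 _ hA' b hbA' j hj'
    have h2 := H3 _ hA i hi a haA'
    linarith [abs_nonneg (v i)]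
  · have hi' : i ∈ Aᶜ := by simpa using hi
    have h1 := H3 _ hA a haA' j hj
    have h2 := H3 _ hA' i hi' b hbA'
    linarith [abs_nonneg (v i)]
  · have hi' : i ∈ Aᶜ := by simpa using hi
    have hj' : j ∈ Aᶜ := by simpa using hj
    have := H3 _ hA' i hi' j hj'
    linarith [abs_nonneg (v i)]

lemma bad1 {v : Fin 6 → ℤ} (h0 : ∑ i, v i = 0)
    (H4 : ∀ A : Finset (Fin 6), A.card = 4 → ∑ i ∈ A, v i = 0 →
      (∀ B ⊆ A, B ∉ Z 2 v) → ∀ a ∈ A, ∀ b ∈ A, |v a| = 1 ∨ |v b| ≤ 1000 * |v a|)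
    (hD : ¬ (DD v).Nonempty) (hc : 1 < (Z 2 v).card) : SemiTight v := by
  obtain ⟨A, hA, B, hB, hne⟩ := one_lt_card.1 hc
  have hnd : ∀ X ∈ Z 2 v, ∀ Y ∈ Z 2 v, ¬ Disjoint X Y := by
    intro X hX Y hY hXY
    exact hD ⟨(X, Y), by rw [mem_DD]; exact ⟨hX, hY, hXY⟩⟩
  have cA := (mem_Z.1 hA).1
  have cB := (mem_Z.1 hB).1
  obtain ⟨i, hiA, hiB⟩ := not_disjoint_iff.1 (hnd A hA B hB)
  have n1 : ¬ A ⊆ B := fun h => hne (eq_of_subset_of_card_le h (by omega))
  obtain ⟨j, hjA, hjB⟩ := not_subset.1 n1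
  have hij : i ≠ j := fun h => hjB (h ▸ hiB)
  have hAe : A = {i, j} := by
    symm
    apply eq_of_subset_of_card_le
    · intro x hx
      simp only [mem_insert, mem_singleton] at hx
      rcases hx with rfl | rfl <;> assumption
    · rw [cA, card_pair hij]
  have hs := (mem_Z.1 hA).2
  rw [hAe, sum_pair hij] at hs
  obtain ⟨k, hkB, hki⟩ : ∃ k ∈ B, k ≠ i := by
    obtain ⟨k, hk, hki⟩ := exists_mem_ne (by omega : 1 < B.card) i
    exact ⟨k, hk, hki⟩
  have hBe : B = {i, k} := by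
    symm
    apply eq_of_subset_of_card_le
    · intro x hx
      simp only [mem_insert, mem_singleton] at hx
      rcases hx with rfl | rfl <;> assumption
    · rw [cB, card_pair hki.symm]
  have hs' := (mem_Z.1 hB).2
  rw [hBe, sum_pair hki.symm] at hs'
  have hR := H4 Bᶜ (by rw [card_compl6]; omega) (by rw [compl_sum h0, (mem_Z.1 hB).2]; simp)
    (by
      intro C hC hC2
      apply hnd C hC2 B hB
      rw [Finset.disjoint_left]
      intro x hx
      have := hC hx
      simpa using this)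
  have hjc : j ∈ Bᶜ := by simpa using hjB
  have hrep : ∀ a, ∃ a' ∈ Bᶜ, |v a'| = |v a| := by
    intro a
    by_cases ha : a ∈ B
    · refine ⟨j, hjc, ?_⟩
      rw [hBe] at ha
      simp only [mem_insert, mem_singleton] at ha
      rcases ha with rfl | rfl
      · have : v j = - v a := by linarith
        rw [this, abs_neg]
      · have : v j = v a := by linarith
        rw [this]
    · exact ⟨a, by simpa using ha, rfl⟩
  intro a b
  obtain ⟨a', ha', ea⟩ := hrep a
  obtain ⟨b', hb', eb⟩ := hrep b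
  have := hR a' ha' b' hb'
  rwa [ea, eb] at this

/-- The pointwise inequality. -/
theorem pointwise {v : Fin 6 → ℤ} (hv : ∀ i, v i ≠ 0) (h0 : ∑ i, v i = 0)
    (H3 : ∀ A ∈ Z 3 v, ∀ a ∈ A, ∀ b ∈ A, |v b| ≤ 10 * |v a|)
    (H4 : ∀ A : Finset (Fin 6), A.card = 4 → ∑ i ∈ A, v i = 0 →
      (∀ B ⊆ A, B ∉ Z 2 v) → ∀ a ∈ A, ∀ b ∈ A, |v a| = 1 ∨ |v b| ≤ 1000 * |v a|)
    (hst : ¬ SemiTight v) :
    0 ≤ (6 : ℤ) - 6 * ((Z 2 v).card : ℤ) + 2 * ((DD v).card : ℤ) - 3 * ((Z 3 v).card : ℤ) := by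
  by_cases hD : (DD v).Nonempty
  · have h1 := P1 h0 hD
    have h3 : (Z 3 v).card = 0 := by
      rw [card_eq_zero]
      by_contra hne
      obtain ⟨A, hA⟩ := nonempty_iff_ne_empty.2 hne
      obtain ⟨x, hx⟩ := hD
      rw [mem_DD] at hx
      exact hst (bad2 hv h0 H3 hA hx.1)
    rw [h3]; push_cast; omega
  · have h1 : (Z 2 v).card ≤ 1 := by
      by_contra hcon
      exact hst (bad1 h0 H4 hD (by omega))
    have h2 : (Z 3 v).card ≤ 2 := by
      by_contra hcon
      exact hst (bad3 h0 H3 (by omega))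
    by_cases h3 : (Z 3 v).card = 0
    · rw [h3]; push_cast; omega
    · obtain ⟨A, hA⟩ := card_pos.1 (Nat.pos_of_ne_zero h3)
      have h4 : (Z 2 v).card = 0 := by
        rw [card_eq_zero]
        by_contra hne
        obtain ⟨B, hB⟩ := nonempty_iff_ne_empty.2 hne
        exact hst (bad2 hv h0 H3 hA hB)
      rw [h4]; push_cast; omega

/-- crude lower bound valid always -/
lemma crude (v : Fin 6 → ℤ) :
    (-144 : ℤ) ≤ (6 : ℤ) - 6 * ((Z 2 v).card : ℤ) + 2 * ((DD v).card : ℤ) - 3 * ((Z 3 v).card : ℤ) := by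
  have h1 : (Z 2 v).card ≤ 15 := by
    refine (card_filter_le _ _).trans ?_
    rw [card_powersetCard]; simp; decide
  have h2 : (Z 3 v).card ≤ 20 := by
    refine (card_filter_le _ _).trans ?_
    rw [card_powersetCard]; simp; decide
  omega

end Pool.Agent.R945.CU
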