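import Pool.Agent.R945.CU.B

namespace Pool.Agent.R945.CU

open Finset

variable {V : Type} [Fintype V]

/-- number of zero-sum functions from `ι` to the signed values -/
def NN (val : V → ℤ) (ι : Type) [Fintype ι] [DecidableEq ι] : ℕ :=
  Fintype.card {τ : ι → V // ∑ i, val (τ i) = 0}

lemma NN_congr (val : V → ℤ) {ι κ : Type} [Fintype ι] [DecidableEq ι] [Fintype κ] [DecidableEq κ]
    (e : ι ≃ κ) : NN val ι = NN val κ := by
  apply Fintype.card_congr
  refine (Equiv.arrowCongr e (Equiv.refl V)).subtypeEquiv ?_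
  intro τ
  simp only [Equiv.arrowCongr_apply, Equiv.coe_refl, Function.comp_apply, id_eq]
  rw [Equiv.sum_comp e.symm (fun i => val (τ i))]

lemma NN_card (val : V → ℤ) {ι : Type} [Fintype ι] [DecidableEq ι] :
    NN val ι = NN val (Fin (Fintype.card ι)) := NN_congr val (Fintype.equivFin ι)

lemma NN_color (val : V → ℤ) {ι K : Type} [Fintype ι] [DecidableEq ι] [Fintype K] [DecidableEq K]
    (c : ι → K) :
    Fintype.card {τ : ι → V // ∀ k, ∑ i : {i // c i = k}, val (τ i) = 0}
      = ∏ k, NN val {i // c i = k} := by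
  unfold NN
  rw [← Fintype.card_pi]
  apply Fintype.card_congr
  exact
    { toFun := fun τ k => ⟨fun i => τ.1 i.1, τ.2 k⟩
      invFun := fun f => ⟨fun i => (f (c i)).1 ⟨i, rfl⟩, by
        intro k
        refine Eq.trans ?_ (f k).2
        apply Finset.sum_congr rfl
        rintro ⟨i, hi⟩ _
        subst hi
        rfl⟩
      left_inv := fun τ => rfl
      right_inv := fun f => by
        funext k
        apply Subtype.ext
        funext ⟨i, hi⟩
        subst hi
        rfl }

/-- two blocks -/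
lemma two_blocks (val : V → ℤ) (A : Finset (Fin 6)) :
    (univ.filter (fun τ : Fin 6 → V => ∑ i ∈ A, val (τ i) = 0 ∧ ∑ i ∈ Aᶜ, val (τ i) = 0)).card
      = NN val (Fin A.card) * NN val (Fin (6 - A.card)) := by
  have h := NN_color val (fun i : Fin 6 => decide (i ∈ A))
  rw [Fintype.prod_bool] at h
  have e1 : NN val {i : Fin 6 // decide (i ∈ A) = true} = NN val (Fin A.card) := by
    rw [NN_card]
    have : Fintype.card {i : Fin 6 // decide (i ∈ A) = true} = A.card := by
      rw [Fintype.card_subtype]; congr 1; ext; simp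
    rw [this]
  have e2 : NN val {i : Fin 6 // decide (i ∈ A) = false} = NN val (Fin (6 - A.card)) := by
    rw [NN_card]
    have : Fintype.card {i : Fin 6 // decide (i ∈ A) = false} = 6 - A.card := by
      rw [Fintype.card_subtype, ← card_compl6]; congr 1; ext; simp
    rw [this]
  rw [e1, e2] at h
  rw [← h, Fintype.card_subtype]
  congr 1
  ext τ
  simp only [mem_filter, mem_univ, true_and, Bool.forall_bool]
  have s1 : ∑ i ∈ A, val (τ i) = ∑ i : {i : Fin 6 // decide (i ∈ A) = true}, val (τ i) := by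
    rw [← Finset.sum_subtype (s := A) (f := fun i => val (τ i))]
    intro x; simp
  have s2 : ∑ i ∈ Aᶜ, val (τ i) = ∑ i : {i : Fin 6 // decide (i ∈ A) = false}, val (τ i) := by
    rw [← Finset.sum_subtype (s := Aᶜ) (f := fun i => val (τ i))]
    intro x; simp
  rw [s1, s2]
  tauto

/-- three blocks of size two -/
lemma three_blocks (val : V → ℤ) (A B : Finset (Fin 6)) (hA : A.card = 2) (hB : B.card = 2)
    (hd : Disjoint A B) :
    (univ.filter (fun τ : Fin 6 → V => ∑ i ∈ A, val (τ i) = 0 ∧ ∑ i ∈ B, val (τ i) = 0 ∧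
      ∑ i ∈ (A ∪ B)ᶜ, val (τ i) = 0)).card = NN val (Fin 2) ^ 3 := by
  set c : Fin 6 → Fin 3 := fun i => if i ∈ A then 0 else if i ∈ B then 1 else 2 with hc
  have h := NN_color val c
  rw [Fin.prod_univ_three] at h
  have m0 : ∀ i, c i = 0 ↔ i ∈ A := by
    intro i; simp only [hc]; split_ifs <;> simp_all
  have m1 : ∀ i, c i = 1 ↔ i ∈ B := by
    intro i; simp only [hc]
    split_ifs with h1 h2
    · simp; exact Finset.disjoint_left.1 hd h1
    · simpa using h2
    · simpa using h2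
  have m2 : ∀ i, c i = 2 ↔ i ∈ (A ∪ B)ᶜ := by
    intro i; simp only [hc]; split_ifs <;> simp_all
  have cc : ((A ∪ B)ᶜ).card = 2 := by
    rw [card_compl6, card_union_of_disjoint hd]; omega
  have ek : ∀ (k : Fin 3) (X : Finset (Fin 6)), X.card = 2 → (∀ i, c i = k ↔ i ∈ X) →
      NN val {i : Fin 6 // c i = k} = NN val (Fin 2) := by
    intro k X hX hm
    rw [NN_card]
    have : Fintype.card {i : Fin 6 // c i = k} = 2 := by
      rw [Fintype.card_subtype, ← hX]; congr 1; ext; simp [hm]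
    rw [this]
  rw [ek 0 A hA m0, ek 1 B hB m1, ek 2 _ cc m2] at h
  have hs : ∀ (τ : Fin 6 → V) (k : Fin 3) (X : Finset (Fin 6)), (∀ i, c i = k ↔ i ∈ X) →
      ∑ i ∈ X, val (τ i) = ∑ i : {i : Fin 6 // c i = k}, val (τ i) := by
    intro τ k X hm
    rw [← Finset.sum_subtype (s := X) (f := fun i => val (τ i))]
    intro x; rw [hm]
  have : NN val (Fin 2) ^ 3 = NN val (Fin 2) * NN val (Fin 2) * NN val (Fin 2) := by ring
  rw [this, ← h, Fintype.card_subtype]
  congr 1
  ext τ
  simp only [mem_filter, mem_univ, true_and, Fin.forall_fin_succ]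
  rw [hs τ 0 A m0, hs τ 1 B m1, hs τ 2 _ m2]
  simp

/-- the set of zero-sum 6-tuples -/
def T6 (val : V → ℤ) : Finset (Fin 6 → V) := univ.filter (fun τ => ∑ i, val (τ i) = 0)

lemma card_T6 (val : V → ℤ) : (T6 val).card = NN val (Fin 6) := by
  unfold T6 NN
  rw [Fintype.card_subtype]

/-- the function attached to a tuple -/
def vv (val : V → ℤ) (τ : Fin 6 → V) : Fin 6 → ℤ := fun i => val (τ i)

lemma sum_Z (val : V → ℤ) (k : ℕ) :
    ∑ τ ∈ T6 val, (Z k (vv val τ)).card = Nat.choose 6 k * (NN val (Fin k) * NN val (Fin (6 - k))) := by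
  have h1 : ∀ τ ∈ T6 val, (Z k (vv val τ)).card
      = ∑ A ∈ (univ : Finset (Fin 6)).powersetCard k, if ∑ i ∈ A, val (τ i) = 0 then 1 else 0 := by
    intro τ _
    rw [Z, card_filter]; rfl
  rw [sum_congr rfl h1, sum_comm]
  have h2 : ∀ A ∈ (univ : Finset (Fin 6)).powersetCard k,
      ∑ τ ∈ T6 val, (if ∑ i ∈ A, val (τ i) = 0 then 1 else 0) = NN val (Fin k) * NN val (Fin (6 - k)) := by
    intro A hA
    rw [mem_powersetCard] at hA
    have := two_blocks val A
    rw [hA.2] at this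
    rw [← this, ← card_filter, T6, filter_filter]
    congr 1
    ext τ
    simp only [mem_filter, mem_univ, true_and]
    have hs := Finset.sum_add_sum_compl A (fun i => val (τ i))
    constructor
    · rintro ⟨h0, hA0⟩
      exact ⟨hA0, by linarith⟩
    · rintro ⟨hA0, hB0⟩
      exact ⟨by linarith, hA0⟩
  rw [sum_congr rfl h2, sum_const, card_powersetCard, smul_eq_mul]
  simp

lemma sum_DD (val : V → ℤ) :
    ∑ τ ∈ T6 val, (DD (vv val τ)).card = 90 * NN val (Fin 2) ^ 3 := by
  set P : Finset (Finset (Fin 6) × Finset (Fin 6)) :=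
    (((univ : Finset (Fin 6)).powersetCard 2) ×ˢ ((univ : Finset (Fin 6)).powersetCard 2)).filter
      (fun x => Disjoint x.1 x.2) with hP
  have cP : P.card = 90 := by rw [hP]; decide +kernel
  have h1 : ∀ τ ∈ T6 val, (DD (vv val τ)).card
      = ∑ x ∈ P, if (∑ i ∈ x.1, val (τ i) = 0 ∧ ∑ i ∈ x.2, val (τ i) = 0) then 1 else 0 := by
    intro τ _
    rw [← card_filter]
    congr 1
    ext x
    simp only [mem_DD, mem_Z, hP, mem_filter, mem_product, mem_powersetCard, subset_univ, true_and, vv]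
    tauto
  rw [sum_congr rfl h1, sum_comm]
  have h2 : ∀ x ∈ P, ∑ τ ∈ T6 val,
      (if (∑ i ∈ x.1, val (τ i) = 0 ∧ ∑ i ∈ x.2, val (τ i) = 0) then 1 else 0) = NN val (Fin 2) ^ 3 := by
    intro x hx
    simp only [hP, mem_filter, mem_product, mem_powersetCard, subset_univ, true_and] at hx
    obtain ⟨⟨ha, hb⟩, hd⟩ := hx
    rw [← three_blocks val x.1 x.2 ha hb hd, ← card_filter, T6, filter_filter]
    congr 1
    ext τ
    simp only [mem_filter, mem_univ, true_and]
    have hs := Finset.sum_add_sum_compl (x.1 ∪ x.2) (fun i => val (τ i))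
    rw [sum_union hd] at hs
    constructor
    · rintro ⟨h0, hA0, hB0⟩
      exact ⟨hA0, hB0, by linarith⟩
    · rintro ⟨hA0, hB0, hC0⟩
      exact ⟨by linarith, hA0, hB0⟩
  rw [sum_congr rfl h2, sum_const, cP, smul_eq_mul]

/-- The counting identity. -/
theorem identity (val : V → ℤ) :
    ∑ τ ∈ T6 val, ((6 : ℤ) - 6 * ((Z 2 (vv val τ)).card : ℤ) + 2 * ((DD (vv val τ)).card : ℤ)
      - 3 * ((Z 3 (vv val τ)).card : ℤ))
      = 6 * ((NN val (Fin 6) : ℤ) - 15 * (NN val (Fin 4) : ℤ) * (NN val (Fin 2) : ℤ)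
        - 10 * (NN val (Fin 3) : ℤ) ^ 2 + 30 * (NN val (Fin 2) : ℤ) ^ 3) := by
  rw [sum_sub_distrib, sum_add_distrib, sum_sub_distrib, ← mul_sum, ← mul_sum, ← mul_sum, sum_const]
  have h2 := sum_Z val 2
  have h3 := sum_Z val 3
  have hD := sum_DD val
  have c2 : Nat.choose 6 2 = 15 := by decide
  have c3 : Nat.choose 6 3 = 20 := by decide
  rw [c2] at h2
  rw [c3] at h3
  have h2' : ∑ τ ∈ T6 val, ((Z 2 (vv val τ)).card : ℤ) = 15 * ((NN val (Fin 2) : ℤ) * (NN val (Fin 4) : ℤ)) := by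
    exact_mod_cast h2
  have h3' : ∑ τ ∈ T6 val, ((Z 3 (vv val τ)).card : ℤ) = 20 * ((NN val (Fin 3) : ℤ) * (NN val (Fin 3) : ℤ)) := by
    exact_mod_cast h3
  have hD' : ∑ τ ∈ T6 val, ((DD (vv val τ)).card : ℤ) = 90 * (NN val (Fin 2) : ℤ) ^ 3 := by
    exact_mod_cast hD
  rw [h2', h3', hD', card_T6]
  simp only [nsmul_eq_mul]
  ring

end Pool.Agent.R945.CU
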