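import Pool.Agent.R945.CU.C

namespace Pool.Agent.R945.CU

open Finset

/-- two-value gap -/
def G2 (v : Fin 6 → ℤ) : Prop := ∀ i j, |v j| < |v i| → |v i| ≤ 10 * (|v i| - |v j|)

/-- three-value gap -/
def G3 (v : Fin 6 → ℤ) : Prop := ∀ i j k, |v j| < |v i| → |v k| < |v i| →
  |(|v i| - |v j| - |v k|)| ≤ 1 ∨ |v i| ≤ 200 * |(|v i| - |v j| - |v k|)|

lemma three_aux {p q r : ℤ} (hs : p + q + r = 0) (hp : p ≠ 0) (hq : q ≠ 0) (hr : r ≠ 0)
    (h1 : |q| < |r| → |r| ≤ 10 * (|r| - |q|)) (h2 : |r| < |q| → |q| ≤ 10 * (|q| - |r|)) :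
    |q| ≤ 10 * |p| := by
  rcases abs_cases p with ⟨e1, _⟩ | ⟨e1, _⟩ <;> rcases abs_cases q with ⟨e2, _⟩ | ⟨e2, _⟩ <;>
  rcases abs_cases r with ⟨e3, _⟩ | ⟨e3, _⟩ <;> rw [e1, e2] <;> rw [e2, e3] at h1 h2 <;> omega

lemma H3_of {v : Fin 6 → ℤ} (hv : ∀ i, v i ≠ 0) (g2 : G2 v) :
    ∀ A ∈ Z 3 v, ∀ a ∈ A, ∀ b ∈ A, |v b| ≤ 10 * |v a| := by
  intro A hA a ha b hb
  rw [mem_Z] at hA
  by_cases hab : a = b
  · subst hab; linarith [abs_nonneg (v a)]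
  have hb' : b ∈ A.erase a := mem_erase.2 ⟨Ne.symm hab, hb⟩
  have c1 : ((A.erase a).erase b).card = 1 := by
    rw [card_erase_of_mem hb', card_erase_of_mem ha, hA.1]
  obtain ⟨c, hc⟩ := card_eq_one.1 c1
  have hs : v a + v b + v c = 0 := by
    have e1 := Finset.add_sum_erase A v ha
    have e2 := Finset.add_sum_erase (A.erase a) v hb'
    rw [hc, sum_singleton] at e2
    rw [hA.2] at e1
    linarith
  exact three_aux hs (hv a) (hv b) (hv c) (g2 c b) (g2 b c)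

lemma four_aux {w x y z : ℤ} (hs : w + x + y + z = 0) (hw : w ≠ 0) (hy0 : y ≠ 0) (hz0 : z ≠ 0)
    (hwx : |w| < |x|) (hyx : |y| ≤ |x|) (hzx : |z| ≤ |x|)
    (hxy : x + y ≠ 0) (hxz : x + z ≠ 0)
    (h2y : |y| < |x| → |x| ≤ 10 * (|x| - |y|)) (h2z : |z| < |x| → |x| ≤ 10 * (|x| - |z|))
    (h3 : |y| < |x| → |z| < |x| → |(|x| - |y| - |z|)| ≤ 1 ∨ |x| ≤ 200 * |(|x| - |y| - |z|)|) :
    |w| = 1 ∨ |x| ≤ 200 * |w| := by
  rcases abs_cases w with ⟨e1, _⟩ | ⟨e1, _⟩ <;> rcases abs_cases x with ⟨e2, _⟩ | ⟨e2, _⟩ <;>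
  rcases abs_cases y with ⟨e3, _⟩ | ⟨e3, _⟩ <;> rcases abs_cases z with ⟨e4, _⟩ | ⟨e4, _⟩ <;>
  rw [e1, e2] at hwx ⊢ <;> rw [e2, e3] at hyx h2y h3 <;> rw [e2, e4] at hzx h2z <;>
  rw [e4] at h3 <;>
  first
  | omega
  | (rcases abs_cases (x - -y - -z) with ⟨e5, _⟩ | ⟨e5, _⟩ <;> rw [e5] at h3 <;> omega)
  | (rcases abs_cases (-x - y - z) with ⟨e5, _⟩ | ⟨e5, _⟩ <;> rw [e5] at h3 <;> omega)

lemma H4_of {v : Fin 6 → ℤ} (hv : ∀ i, v i ≠ 0) (g2 : G2 v) (g3 : G3 v) :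
    ∀ A : Finset (Fin 6), A.card = 4 → ∑ i ∈ A, v i = 0 →
      (∀ B ⊆ A, B ∉ Z 2 v) → ∀ a ∈ A, ∀ b ∈ A, |v a| = 1 ∨ |v b| ≤ 1000 * |v a| := by
  intro A hA h0 hB a ha b hb
  by_cases hab : b = a
  · subst hab; right; linarith [abs_nonneg (v b)]
  have ca : (A.erase a).card = 3 := by rw [card_erase_of_mem ha, hA]
  obtain ⟨x, hx, hmax⟩ := exists_max_image (A.erase a) (fun i => |v i|) (by rw [← card_pos]; omega)
  have hxA := mem_of_mem_erase hx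
  have cx : ((A.erase a).erase x).card = 2 := by rw [card_erase_of_mem hx, ca]
  obtain ⟨y, z, hyz, hyze⟩ := card_eq_two.1 cx
  have hy : y ∈ (A.erase a).erase x := by rw [hyze]; simp
  have hz : z ∈ (A.erase a).erase x := by rw [hyze]; simp
  have hyA := mem_of_mem_erase hy
  have hzA := mem_of_mem_erase hz
  have hyx : x ≠ y := (ne_of_mem_erase hy).symm
  have hzx : x ≠ z := (ne_of_mem_erase hz).symm
  have e1 := Finset.add_sum_erase A v ha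
  have e2 := Finset.add_sum_erase (A.erase a) v hx
  rw [hyze, sum_pair hyz] at e2
  rw [h0] at e1
  have hs : v a + v x + v y + v z = 0 := by linarith
  have hbx : |v b| ≤ |v x| := hmax b (mem_erase.2 ⟨hab, hb⟩)
  have hyx' : |v y| ≤ |v x| := hmax y hyA
  have hzx' : |v z| ≤ |v x| := hmax z hzA
  have nc : ∀ p q : Fin 6, p ≠ q → p ∈ A → q ∈ A → v p + v q ≠ 0 := by
    intro p q hpq hp hq h
    apply hB {p, q}
    · intro t ht
      simp only [mem_insert, mem_singleton] at ht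
      rcases ht with rfl | rfl <;> assumption
    · rw [mem_Z, card_pair hpq, sum_pair hpq]; exact ⟨rfl, h⟩
  by_cases hlt : |v a| < |v x|
  · rcases four_aux hs (hv a) (hv y) (hv z) hlt hyx' hzx'
      (nc x y hyx hxA (mem_of_mem_erase hyA)) (nc x z hzx hxA (mem_of_mem_erase hzA))
      (g2 x y) (g2 x z) (g3 x y z) with h | h
    · left; exact h
    · right; linarith [abs_nonneg (v a)]
  · right
    push Not at hlt
    linarith [abs_nonneg (v a)]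

end Pool.Agent.R945.CU
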