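import Pool.Agent.R945.CU.D

namespace Pool.Agent.R945.CU

open Finset

/-- hypotheses on the sequence -/
structure Good (a : ℕ → ℤ) : Prop where
  pos : ∀ k, 1 ≤ k → 1 ≤ a k
  mono : Monotone a
  g2 : ∀ k l, 1 ≤ k → 1 ≤ l → a l < a k → a k ≤ 10 * (a k - a l)
  g3 : ∀ k l m, 1 ≤ k → 1 ≤ l → 1 ≤ m → a l < a k → a m < a k →
    |a k - a l - a m| ≤ 1 ∨ a k ≤ 200 * |a k - a l - a m|
  win : ∀ k K, 1 ≤ k → k ≤ K → (a k = 1 ∨ a K ≤ 1000 * a k) → k ≤ 2 ∨ K < k + 36
  rel : ∀ s, a (4 * s + 6) = a (4 * s + 4) + a (4 * s + 2) + 1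
  big : ∀ s t, s + 10 ≤ t → 3 * a (4 * s + 6) < a (4 * t + 2)

/-- signed value -/
def sval (a : ℕ → ℤ) (n : ℕ) (x : Fin n × Bool) : ℤ :=
  if x.2 then a (x.1 + 1) else - a (x.1 + 1)

lemma abs_sval {a : ℕ → ℤ} (h : Good a) {n : ℕ} (x : Fin n × Bool) :
    |sval a n x| = a (x.1 + 1) := by
  have := h.pos (x.1 + 1) (by omega)
  unfold sval
  split_ifs
  · rw [abs_of_nonneg]; omega
  · rw [abs_neg, abs_of_nonneg]; omega

lemma sval_ne {a : ℕ → ℤ} (h : Good a) {n : ℕ} (x : Fin n × Bool) : sval a n x ≠ 0 := by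
  have := h.pos (x.1 + 1) (by omega)
  unfold sval
  split_ifs <;> omega

/-- window -/
def W (n K : ℕ) : Finset (Fin n × Bool) :=
  univ.filter (fun x => x.1.1 + 1 ≤ K + 1 ∧ (x.1.1 + 1 ≤ 2 ∨ K + 1 < x.1.1 + 1 + 36))

lemma card_W (n K : ℕ) : (W n K).card ≤ 76 := by
  have h1 : (W n K).card ≤ ((Finset.Icc 0 1 ∪ Finset.Icc (K - 35) K) ×ˢ (univ : Finset Bool)).card := by
    apply Finset.card_le_card_of_injOn (fun x => (x.1.1, x.2))
    · intro x hx
      simp only [W, coe_filter, mem_univ, true_and, Set.mem_ofPred_eq] at hx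
      simp only [coe_product, Set.mem_prod, mem_coe, mem_union, mem_Icc, mem_univ, and_true]
      omega
    · intro x _ y _ h
      simp only [Prod.mk.injEq] at h
      exact Prod.ext (Fin.ext h.1) h.2
  rw [card_product] at h1
  have h2 : (Finset.Icc 0 1 ∪ Finset.Icc (K - 35) K).card ≤ 38 := by
    refine (card_union_le _ _).trans ?_
    simp only [Nat.card_Icc]
    omega
  have h3 : (univ : Finset Bool).card = 2 := by simp
  rw [h3] at h1
  omega

instance (v : Fin 6 → ℤ) : Decidable (SemiTight v) := by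
  unfold SemiTight; infer_instance

lemma card_ST {a : ℕ → ℤ} (h : Good a) (n : ℕ) :
    ((T6 (sval a n)).filter (fun τ => SemiTight (vv (sval a n) τ))).card ≤ n * 76 ^ 6 := by
  classical
  have hsub : (T6 (sval a n)).filter (fun τ => SemiTight (vv (sval a n) τ))
      ⊆ (Finset.range n).biUnion (fun K => Fintype.piFinset (fun _ : Fin 6 => W n K)) := by
    intro τ hτ
    rw [mem_filter] at hτ
    obtain ⟨i, _, hmax⟩ := exists_max_image (univ : Finset (Fin 6)) (fun i => (τ i).1.1) ⟨0, mem_univ _⟩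
    rw [mem_biUnion]
    refine ⟨(τ i).1.1, by simp, ?_⟩
    rw [Fintype.mem_piFinset]
    intro j
    have hj := hmax j (mem_univ _)
    simp only [W, mem_filter, mem_univ, true_and]
    refine ⟨by omega, ?_⟩
    have hst := hτ.2 j i
    simp only [vv, abs_sval h] at hst
    have := h.win ((τ j).1.1 + 1) ((τ i).1.1 + 1) (by omega) (by omega) hst
    omega
  refine (card_le_card hsub).trans ?_
  refine card_biUnion_le.trans ?_
  have : ∀ K ∈ Finset.range n, (Fintype.piFinset (fun _ : Fin 6 => W n K)).card ≤ 76 ^ 6 := by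
    intro K _
    rw [Fintype.card_piFinset, prod_const, card_univ, Fintype.card_fin]
    exact Nat.pow_le_pow_left (card_W n K) 6
  refine (sum_le_sum this).trans ?_
  rw [sum_const, card_range, smul_eq_mul]

lemma no_pairs {v : Fin 6 → ℤ} (h : ∀ i j, i ≠ j → v i + v j ≠ 0) : Z 2 v = ∅ := by
  rw [eq_empty_iff_forall_notMem]
  intro A hA
  rw [mem_Z] at hA
  obtain ⟨i, j, hij, rfl⟩ := card_eq_two.1 hA.1
  rw [sum_pair hij] at hA
  exact h i j hij hA.2

lemma no_triples {v : Fin 6 → ℤ} (h : ∀ i j k, i ≠ j → i ≠ k → j ≠ k → v i + v j + v k ≠ 0) :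
    Z 3 v = ∅ := by
  rw [eq_empty_iff_forall_notMem]
  intro A hA
  rw [mem_Z] at hA
  obtain ⟨i, j, k, hij, hik, hjk, rfl⟩ := card_eq_three.1 hA.1
  rw [sum_insert (by simp [hij, hik]), sum_pair hjk] at hA
  exact h i j k hij hik hjk (by linarith [hA.2])

lemma generic {v : Fin 6 → ℤ} {B0 B1 S0 S1 : ℤ} (h0 : v 0 = B1 + B0 + 1) (h1 : v 1 = -B1)
    (h2 : v 2 = -B0) (h3 : v 3 = -(S1 + S0 + 1)) (h4 : v 4 = S1) (h5 : v 5 = S0)
    (p0 : 1 ≤ S0) (p1 : S0 ≤ S1) (p2 : B0 ≤ B1) (p3 : 3 * (S1 + S0 + 1) < B0) :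
    Z 2 v = ∅ ∧ Z 3 v = ∅ ∧ DD v = ∅ := by
  have hz2 : Z 2 v = ∅ := by
    apply no_pairs
    intro i j hij
    fin_cases i <;> fin_cases j <;> simp only [Fin.zero_eta, Fin.mk_one, Fin.reduceFinMk, h0, h1, h2, h3, h4, h5] <;>
      first | (exfalso; exact hij rfl) | omega
  refine ⟨hz2, ?_, ?_⟩
  · apply no_triples
    intro i j k hij hik hjk
    fin_cases i <;> fin_cases j <;> (try (exfalso; exact hij rfl)) <;> fin_cases k <;>
      simp only [Fin.zero_eta, Fin.mk_one, Fin.reduceFinMk, h0, h1, h2, h3, h4, h5] <;>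
      first | (exfalso; exact hik rfl) | (exfalso; exact hjk rfl) | omega
  · rw [DD, hz2]; simp

end Pool.Agent.R945.CU
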