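import Pool.Agent.R945.CU.E

namespace Pool.Agent.R945.CU

open Finset

/-- the special tuples -/
def special {n m : ℕ} (hm : 8 * m + 46 ≤ n) (x : Fin m × Fin m) : Fin 6 → Fin n × Bool :=
  ![(⟨4 * (x.2.1 + m + 10) + 5, by have := x.2.2; omega⟩, true),
    (⟨4 * (x.2.1 + m + 10) + 3, by have := x.2.2; omega⟩, false),
    (⟨4 * (x.2.1 + m + 10) + 1, by have := x.2.2; omega⟩, false),
    (⟨4 * x.1.1 + 5, by have := x.1.2; omega⟩, false),
    (⟨4 * x.1.1 + 3, by have := x.1.2; omega⟩, true),
    (⟨4 * x.1.1 + 1, by have := x.1.2; omega⟩, true)]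

lemma special_inj {n m : ℕ} (hm : 8 * m + 46 ≤ n) : Function.Injective (special hm) := by
  intro x y hxy
  have h0 := congrFun hxy 0
  have h3 := congrFun hxy 3
  simp only [special, Matrix.cons_val_zero, Prod.mk.injEq, Fin.mk.injEq, and_true] at h0
  simp only [special, Matrix.cons_val, Prod.mk.injEq, Fin.mk.injEq, and_true] at h3
  apply Prod.ext
  · apply Fin.ext; omega
  · apply Fin.ext; omega

lemma special_generic {a : ℕ → ℤ} (h : Good a) {n m : ℕ} (hm : 8 * m + 46 ≤ n) (x : Fin m × Fin m) :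
    special hm x ∈ T6 (sval a n) ∧ Z 2 (vv (sval a n) (special hm x)) = ∅ ∧
      Z 3 (vv (sval a n) (special hm x)) = ∅ ∧ DD (vv (sval a n) (special hm x)) = ∅ := by
  have r1 := h.rel (x.2.1 + m + 10)
  have r2 := h.rel x.1.1
  have hb := h.big x.1.1 (x.2.1 + m + 10) (by have := x.1.2; omega)
  have m1 := h.mono (show 4 * (x.2.1 + m + 10) + 2 ≤ 4 * (x.2.1 + m + 10) + 4 by omega)
  have m2 := h.mono (show 4 * x.1.1 + 2 ≤ 4 * x.1.1 + 4 by omega)
  have p1 := h.pos (4 * x.1.1 + 2) (by omega)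
  have v0 : vv (sval a n) (special hm x) 0 = a (4 * (x.2.1 + m + 10) + 6) := by
    simp [vv, sval, special]
  have v1 : vv (sval a n) (special hm x) 1 = - a (4 * (x.2.1 + m + 10) + 4) := by
    simp [vv, sval, special]
  have v2 : vv (sval a n) (special hm x) 2 = - a (4 * (x.2.1 + m + 10) + 2) := by
    simp [vv, sval, special]
  have v3 : vv (sval a n) (special hm x) 3 = - a (4 * x.1.1 + 6) := by
    simp [vv, sval, special]
  have v4 : vv (sval a n) (special hm x) 4 = a (4 * x.1.1 + 4) := by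
    simp [vv, sval, special]
  have v5 : vv (sval a n) (special hm x) 5 = a (4 * x.1.1 + 2) := by
    simp [vv, sval, special]
  refine ⟨?_, ?_⟩
  · simp only [T6, mem_filter, mem_univ, true_and]
    have : ∑ i, sval a n (special hm x i) = ∑ i, vv (sval a n) (special hm x) i := rfl
    rw [this, Fin.sum_univ_six, v0, v1, v2, v3, v4, v5]
    omega
  · exact generic (v0.trans r1) v1 v2 (by rw [v3, r2]) v4 v5 p1 m2 m1 (by rw [← r2]; exact hb)

theorem lower {a : ℕ → ℤ} (h : Good a) {n m : ℕ} (hm : 8 * m + 46 ≤ n) :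
    6 * (m : ℤ) ^ 2 - 150 * ((n : ℤ) * 76 ^ 6) ≤
      6 * ((NN (sval a n) (Fin 6) : ℤ) - 15 * (NN (sval a n) (Fin 4) : ℤ) * (NN (sval a n) (Fin 2) : ℤ)
        - 10 * (NN (sval a n) (Fin 3) : ℤ) ^ 2 + 30 * (NN (sval a n) (Fin 2) : ℤ) ^ 3) := by
  rw [← identity]
  set val := sval a n with hval
  set Dn : Finset (Fin 6 → Fin n × Bool) := (univ : Finset (Fin m × Fin m)).image (special hm) with hDn
  have cD : Dn.card = m ^ 2 := by
    rw [hDn, card_image_of_injective _ (special_inj hm), card_univ, Fintype.card_prod, Fintype.card_fin]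
    ring
  have hDsub : Dn ⊆ T6 val := by
    intro τ hτ
    rw [hDn, mem_image] at hτ
    obtain ⟨x, _, rfl⟩ := hτ
    exact (special_generic h hm x).1
  have key : ∀ τ ∈ T6 val, (6 : ℤ) * (if τ ∈ Dn then 1 else 0) - 150 * (if SemiTight (vv val τ) then 1 else 0)
      ≤ (6 : ℤ) - 6 * ((Z 2 (vv val τ)).card : ℤ) + 2 * ((DD (vv val τ)).card : ℤ)
        - 3 * ((Z 3 (vv val τ)).card : ℤ) := by
    intro τ hτ
    by_cases hD : τ ∈ Dn
    · rw [if_pos hD]
      rw [hDn, mem_image] at hD
      obtain ⟨x, _, rfl⟩ := hD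
      obtain ⟨_, e2, e3, e4⟩ := special_generic h hm x
      rw [hval, e2, e3, e4]
      simp only [card_empty]
      split_ifs <;> norm_num
    · rw [if_neg hD]
      by_cases hst : SemiTight (vv val τ)
      · rw [if_pos hst]
        have := crude (vv val τ)
        linarith
      · rw [if_neg hst]
        have hne : ∀ i, vv val τ i ≠ 0 := fun i => sval_ne h _
        have g2 : G2 (vv val τ) := by
          intro i j hij
          simp only [vv, hval, abs_sval h] at hij ⊢
          exact h.g2 _ _ (by omega) (by omega) hij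
        have g3 : G3 (vv val τ) := by
          intro i j k hij hik
          simp only [vv, hval, abs_sval h] at hij hik ⊢
          exact h.g3 _ _ _ (by omega) (by omega) (by omega) hij hik
        have := pointwise hne (by
          have h1 := hτ; simp only [T6, mem_filter, mem_univ, true_and] at h1; exact h1) (H3_of hne g2) (H4_of hne g2 g3) hst
        linarith
  refine le_trans ?_ (sum_le_sum key)
  rw [sum_sub_distrib, ← mul_sum, ← mul_sum]
  have s1 : ∑ τ ∈ T6 val, (if τ ∈ Dn then (1 : ℤ) else 0) = (m : ℤ) ^ 2 := by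
    rw [sum_ite_mem, inter_eq_right.2 hDsub, sum_const, cD]
    simp
  have s2 : ∑ τ ∈ T6 val, (if SemiTight (vv val τ) then (1 : ℤ) else 0) ≤ (n : ℤ) * 76 ^ 6 := by
    rw [sum_boole]
    exact_mod_cast card_ST h n
  rw [s1]
  linarith

end Pool.Agent.R945.CU
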