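import Mathlib

namespace Pool.Agent.R945.CU

open MeasureTheory ProbabilityTheory

/-- sixth cumulant of a centred variable in terms of its moments -/
theorem cumulant6 {Ω : Type*} [MeasurableSpace Ω] {μ : Measure Ω} [IsProbabilityMeasure μ]
    {X : Ω → ℝ} (h : ∀ t : ℝ, Integrable (fun ω => Real.exp (t * X ω)) μ)
    (h1 : ∫ ω, X ω ∂μ = 0) :
    iteratedDeriv 6 (cgf X μ) 0 = (∫ ω, X ω ^ 6 ∂μ) - 15 * (∫ ω, X ω ^ 4 ∂μ) * (∫ ω, X ω ^ 2 ∂μ)
      - 10 * (∫ ω, X ω ^ 3 ∂μ) ^ 2 + 30 * (∫ ω, X ω ^ 2 ∂μ) ^ 3 := by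
  have hset : integrableExpSet X μ = Set.univ := by
    ext t; simp only [Set.mem_univ, iff_true]; exact h t
  have hint : ∀ t : ℝ, t ∈ interior (integrableExpSet X μ) := by
    intro t; rw [hset, interior_univ]; trivial
  have hder : deriv (mgf X μ) = deriv (cgf X μ) * mgf X μ := by
    funext v
    rw [Pi.mul_apply, deriv_cgf (hint v), deriv_mgf (hint v), div_mul_cancel₀]
    exact (mgf_pos (h v)).ne'
  have cM : ContDiffAt ℝ ⊤ (mgf X μ) 0 := (analyticAt_mgf (hint 0)).contDiffAt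
  have cK : ContDiffAt ℝ ⊤ (deriv (cgf X μ)) 0 := (analyticAt_cgf (hint 0)).deriv.contDiffAt
  have hrec : ∀ r : ℕ, iteratedDeriv (r + 1) (mgf X μ) 0 = ∑ i ∈ Finset.range (r + 1),
      (r.choose i : ℝ) * iteratedDeriv (i + 1) (cgf X μ) 0 * iteratedDeriv (r - i) (mgf X μ) 0 := by
    intro r
    rw [iteratedDeriv_succ', hder, iteratedDeriv_mul (cK.of_le (by exact_mod_cast le_top)) (cM.of_le (by exact_mod_cast le_top))]
    apply Finset.sum_congr rfl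
    intro i _
    rw [iteratedDeriv_succ']
  have mz := fun n => iteratedDeriv_mgf_zero (hint 0) n
  have m0 : iteratedDeriv 0 (mgf X μ) 0 = 1 := by rw [mz]; simp
  have m1 : iteratedDeriv 1 (mgf X μ) 0 = 0 := by rw [mz]; simpa using h1
  have e0 := hrec 0
  have e1 := hrec 1
  have e2 := hrec 2
  have e3 := hrec 3
  have e4 := hrec 4
  have e5 := hrec 5
  simp only [Finset.sum_range_succ, Finset.sum_range_zero, Nat.choose, Nat.cast_one,
    zero_add, one_mul, Nat.sub_zero, Nat.sub_self, Nat.reduceAdd, Nat.reduceSub, m0, m1, mul_one, mul_zero,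
    add_zero, zero_mul] at e0 e1 e2 e3 e4 e5
  have m2 : iteratedDeriv 2 (mgf X μ) 0 = ∫ ω, X ω ^ 2 ∂μ := by rw [mz]; rfl
  have m3 : iteratedDeriv 3 (mgf X μ) 0 = ∫ ω, X ω ^ 3 ∂μ := by rw [mz]; rfl
  have m4 : iteratedDeriv 4 (mgf X μ) 0 = ∫ ω, X ω ^ 4 ∂μ := by rw [mz]; rfl
  have m6 : iteratedDeriv 6 (mgf X μ) 0 = ∫ ω, X ω ^ 6 ∂μ := by rw [mz]; rfl
  rw [← m2, ← m3, ← m4, ← m6]
  set k1 := iteratedDeriv 1 (cgf X μ) 0
  set k2 := iteratedDeriv 2 (cgf X μ) 0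
  set k3 := iteratedDeriv 3 (cgf X μ) 0
  set k4 := iteratedDeriv 4 (cgf X μ) 0
  set k5 := iteratedDeriv 5 (cgf X μ) 0
  set k6 := iteratedDeriv 6 (cgf X μ) 0
  set M2 := iteratedDeriv 2 (mgf X μ) 0
  set M3 := iteratedDeriv 3 (mgf X μ) 0
  set M4 := iteratedDeriv 4 (mgf X μ) 0
  set M5 := iteratedDeriv 5 (mgf X μ) 0
  set M6 := iteratedDeriv 6 (mgf X μ) 0
  have hk1 : k1 = 0 := by linarith
  push_cast at e2 e3 e4 e5
  rw [hk1, ← e1] at e5
  rw [hk1, ← e1] at e3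
  rw [hk1] at e2
  have hk3 : k3 = M3 := by linarith
  have hk4 : k4 = M4 - 3 * M2 ^ 2 := by linear_combination -e3
  rw [hk3, hk4] at e5
  linear_combination -e5

end Pool.Agent.R945.CU
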