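import Pool.Agent.R945.CU.F
import Pool.Agent.R945.CU.G

namespace Pool.Agent.R945.CU

open MeasureTheory ProbabilityTheory Complex

lemma int_exp (m : ℤ) : ∫ ω in (0:ℝ)..1, Complex.exp (2 * Real.pi * I * m * ω)
    = if m = 0 then 1 else 0 := by
  split_ifs with h
  · subst h; simp
  · have hc : (2 * Real.pi * I * m : ℂ) ≠ 0 := by
      have : (m : ℂ) ≠ 0 := by exact_mod_cast h
      have hp : (Real.pi : ℂ) ≠ 0 := by exact_mod_cast Real.pi_ne_zero
      simp [this, hp, I_ne_zero]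
    rw [integral_exp_mul_complex hc]
    have : Complex.exp (2 * Real.pi * I * m * (1:ℝ)) = 1 := by
      rw [Complex.exp_eq_one_iff]
      exact ⟨m, by push_cast; ring⟩
    rw [this]; simp

lemma moment {V : Type} [Fintype V] (val : V → ℤ) (X : ℝ → ℝ)
    (hX : ∀ ω, ((X ω : ℝ) : ℂ) = (1 / 2) * ∑ x, Complex.exp (2 * Real.pi * I * (val x) * ω)) (r : ℕ) :
    ∫ ω in (0:ℝ)..1, X ω ^ r = (NN val (Fin r) : ℝ) / 2 ^ r := by
  classical
  have h : ((∫ ω in (0:ℝ)..1, X ω ^ r : ℝ) : ℂ) = (NN val (Fin r) : ℂ) / 2 ^ r := by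
    rw [← intervalIntegral.integral_ofReal]
    have e : ∀ ω : ℝ, ((X ω ^ r : ℝ) : ℂ) = (1 / 2) ^ r * ∑ τ : Fin r → V,
        Complex.exp (2 * Real.pi * I * ((∑ i, val (τ i) : ℤ) : ℂ) * ω) := by
      intro ω
      rw [Complex.ofReal_pow, hX, mul_pow, Fintype.sum_pow]
      congr 1
      apply Finset.sum_congr rfl
      intro τ _
      rw [← Complex.exp_sum]
      congr 1
      push_cast
      rw [Finset.mul_sum, Finset.sum_mul]
    rw [intervalIntegral.integral_congr (fun ω _ => e ω), intervalIntegral.integral_const_mul,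
      intervalIntegral.integral_finsetSum]
    · simp_rw [int_exp]
      rw [Finset.sum_boole, NN, Fintype.card_subtype, one_div, inv_pow, div_eq_inv_mul]
    · intro τ _
      apply Continuous.intervalIntegrable
      fun_prop
  apply Complex.ofReal_injective
  rw [h]; push_cast; rfl

lemma sum_Icc_fin (n : ℕ) (f : ℕ → ℝ) : ∑ k ∈ Finset.Icc 1 n, f k = ∑ i : Fin n, f (i + 1) := by
  rw [← Finset.sum_range (fun i => f (i + 1)), Finset.range_eq_Ico, Finset.sum_Ico_add' f 0 n 1]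
  rfl

/-- the trigonometric sum -/
noncomputable def cosSum (a : ℕ → ℤ) (n : ℕ) (ω : ℝ) : ℝ :=
  ∑ k ∈ Finset.Icc 1 n, Real.cos (2 * Real.pi * (a k : ℝ) * ω)

lemma cosSum_eq (a : ℕ → ℤ) (n : ℕ) (ω : ℝ) :
    ((cosSum a n ω : ℝ) : ℂ) = (1 / 2) * ∑ x, Complex.exp (2 * Real.pi * I * (sval a n x) * ω) := by
  rw [cosSum, sum_Icc_fin, Fintype.sum_prod_type, Finset.mul_sum]
  push_cast
  apply Finset.sum_congr rfl
  intro i _
  rw [Fintype.sum_bool, Complex.cos]
  simp only [sval, if_true, Bool.false_eq_true, if_false]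
  push_cast
  rw [show (2 * Real.pi * (a (i + 1) : ℂ) * ω * I : ℂ) = 2 * Real.pi * I * (a (i + 1) : ℂ) * ω by ring,
    show (-(2 * Real.pi * (a (i + 1) : ℂ) * ω) * I : ℂ) = 2 * Real.pi * I * (-(a (i + 1) : ℂ)) * ω by ring]
  ring

lemma cosSum_continuous (a : ℕ → ℤ) (n : ℕ) : Continuous (cosSum a n) := by
  unfold cosSum; fun_prop

/-- cumulants of a function on the unit interval -/
noncomputable def cumulant (m : ℕ) (X : ℝ → ℝ) : ℝ :=
  iteratedDeriv m (fun t : ℝ => Real.log (∫ ω in (0:ℝ)..1, Real.exp (t * X ω))) 0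

theorem cumulant_six (a : ℕ → ℤ) (ha : ∀ k, 1 ≤ k → 1 ≤ a k) (n : ℕ) :
    cumulant 6 (cosSum a n) = ((NN (sval a n) (Fin 6) : ℝ)
      - 15 * (NN (sval a n) (Fin 4) : ℝ) * (NN (sval a n) (Fin 2) : ℝ)
      - 10 * (NN (sval a n) (Fin 3) : ℝ) ^ 2 + 30 * (NN (sval a n) (Fin 2) : ℝ) ^ 3) / 64 := by
  set μ : Measure ℝ := volume.restrict (Set.Ioc 0 1) with hμ
  have : IsProbabilityMeasure μ := ⟨by rw [hμ]; simp⟩
  have hcgf : (fun t : ℝ => Real.log (∫ ω in (0:ℝ)..1, Real.exp (t * cosSum a n ω))) = cgf (cosSum a n) μ := by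
    funext t
    rw [cgf, mgf, intervalIntegral.integral_of_le zero_le_one]
  have hint : ∀ t : ℝ, Integrable (fun ω => Real.exp (t * cosSum a n ω)) μ := by
    intro t
    have hc : Continuous (fun ω => Real.exp (t * cosSum a n ω)) := by
      have := cosSum_continuous a n
      fun_prop
    exact (hc.intervalIntegrable 0 1).1
  have hmom : ∀ r : ℕ, ∫ ω, cosSum a n ω ^ r ∂μ = (NN (sval a n) (Fin r) : ℝ) / 2 ^ r := by
    intro r
    rw [← moment (sval a n) (cosSum a n) (cosSum_eq a n) r, intervalIntegral.integral_of_le zero_le_one]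
  have h1 : ∫ ω, cosSum a n ω ∂μ = 0 := by
    have := hmom 1
    simp only [pow_one] at this
    rw [this]
    have : NN (sval a n) (Fin 1) = 0 := by
      rw [NN, Fintype.card_eq_zero_iff]
      refine ⟨fun τ => ?_⟩
      have h2 := τ.2
      rw [Fin.sum_univ_one] at h2
      have h3 := ha ((τ.1 0).1 + 1) (by omega)
      unfold sval at h2
      split_ifs at h2 <;> omega
    rw [this]; simp
  rw [cumulant, hcgf, cumulant6 hint h1, hmom, hmom, hmom, hmom]
  ring

end Pool.Agent.R945.CU
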