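import Pool.Agent.R945.CU.E

namespace Pool.Agent.R945.CU

open Real

/-- the square root of the golden ratio -/
noncomputable def eta : ℝ := √goldenRatio

lemma eta_sq : eta ^ 2 = goldenRatio := Real.sq_sqrt goldenRatio_pos.le

lemma eta_four : eta ^ 4 = eta ^ 2 + 1 := by
  have : eta ^ 4 = (eta ^ 2) ^ 2 := by ring
  rw [this, eta_sq, goldenRatio_sq]

lemma eta_nonneg : 0 ≤ eta := Real.sqrt_nonneg _

lemma golden_bounds : (1.618 : ℝ) < goldenRatio ∧ goldenRatio < 1.6181 := by
  have h := goldenRatio_sq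
  have h0 := goldenRatio_pos
  constructor <;> nlinarith

lemma eta_bounds : (1.272 : ℝ) < eta ∧ eta < 1.2721 := by
  have h := eta_sq
  have h0 := eta_nonneg
  have hg := golden_bounds
  constructor <;> nlinarith

lemma eta_pos : 0 < eta := by linarith [eta_bounds.1]
lemma one_lt_eta : 1 < eta := by linarith [eta_bounds.1]

/-- u = 1 / eta -/
noncomputable def u : ℝ := eta⁻¹

lemma u_mul : u * eta = 1 := inv_mul_cancel₀ eta_pos.ne'

lemma u_pos : 0 < u := inv_pos.2 eta_pos

lemma u_rel : u ^ 4 + u ^ 2 = 1 := by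
  have h := eta_four
  have h1 := u_mul
  have h2 : u ^ 4 * eta ^ 4 = 1 := by rw [← mul_pow, h1, one_pow]
  have h3 : u ^ 2 * eta ^ 2 = 1 := by rw [← mul_pow, h1, one_pow]
  have : u ^ 4 + u ^ 2 = u ^ 4 * (1 + eta ^ 2) := by
    have : u ^ 2 = u ^ 4 * eta ^ 2 := by
      rw [show u ^ 4 * eta ^ 2 = u ^ 2 * (u ^ 2 * eta ^ 2) by ring, h3, mul_one]
    rw [mul_add, mul_one, ← this]
  rw [this, add_comm 1, ← h, h2]

lemma u_bounds : (0.786 : ℝ) < u ∧ u < 0.7862 := by
  have h := u_mul
  have hb := eta_bounds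
  have h0 := u_pos
  constructor <;> nlinarith

lemma u2_bounds : (0.618 : ℝ) < u ^ 2 ∧ u ^ 2 < 0.6181 := by
  have h := u_rel
  have h0 := u_pos
  have h1 : (u ^ 2) ^ 2 + u ^ 2 = 1 := by rw [← h]; ring
  have h2 : 0 < u ^ 2 := by positivity
  constructor <;> nlinarith

lemma u_lt_one : u < 1 := by linarith [u_bounds.2]

lemma tri_aux {i j : ℕ} (hi : 1 ≤ i) (hij : i ≤ j) :
    u ^ i + u ^ j ≤ 49 / 50 ∨ 51 / 50 ≤ u ^ i + u ^ j ∨ u ^ i + u ^ j = 1 := by
  have hb := u_bounds
  have hb2 := u2_bounds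
  have h0 := u_pos
  have anti : ∀ a b : ℕ, a ≤ b → u ^ b ≤ u ^ a := fun a b hab =>
    pow_le_pow_of_le_one h0.le u_lt_one.le hab
  have h3l : (0.4857 : ℝ) < u ^ 3 := by
    have : u ^ 3 = u * u ^ 2 := by ring
    rw [this]; nlinarith
  have h3u : u ^ 3 < 0.486 := by
    have : u ^ 3 = u * u ^ 2 := by ring
    rw [this]; nlinarith
  have h6l : (0.2359 : ℝ) < u ^ 6 := by
    have : u ^ 6 = u ^ 3 * u ^ 3 := by ring
    rw [this]; nlinarith
  have h6u : u ^ 6 < 0.2362 := by
    have : u ^ 6 = u ^ 3 * u ^ 3 := by ring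
    rw [this]; nlinarith
  have h7u : u ^ 7 < 0.1858 := by
    have : u ^ 7 = u ^ 6 * u := by ring
    rw [this]; nlinarith
  have h5u : u ^ 5 < 0.3005 := by
    have : u ^ 5 = u ^ 3 * u ^ 2 := by ring
    rw [this]; nlinarith
  rcases Nat.lt_or_ge i 3 with hi3 | hi3
  · interval_cases i
    · rcases Nat.lt_or_ge j 7 with hj | hj
      · right; left
        have := anti j 6 (by omega)
        rw [pow_one]; linarith
      · left
        have := anti 7 j hj
        rw [pow_one]; linarith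
    · rcases Nat.lt_or_ge j 4 with hj | hj
      · right; left
        have := anti j 3 (by omega)
        linarith
      · rcases Nat.eq_or_lt_of_le hj with hj' | hj'
        · right; right; rw [← hj', ← u_rel]; ring
        · left
          have := anti 5 j hj'
          linarith
  · left
    have h1 := anti 3 i hi3
    have h2 := anti 3 j (by omega)
    linarith

lemma tri (i j : ℕ) (hi : 1 ≤ i) (hj : 1 ≤ j) :
    u ^ i + u ^ j ≤ 49 / 50 ∨ 51 / 50 ≤ u ^ i + u ^ j ∨ u ^ i + u ^ j = 1 := by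
  rcases le_total i j with h | h
  · exact tri_aux hi h
  · rw [add_comm (u ^ i)]; exact tri_aux hj h

/-- the sequence -/
noncomputable def seq (k : ℕ) : ℤ := ((⌊eta ^ k⌋₊ : ℕ) : ℤ)

lemma seq_le (k : ℕ) : (seq k : ℝ) ≤ eta ^ k := by
  unfold seq; push_cast
  exact Nat.floor_le (pow_nonneg eta_nonneg k)

lemma lt_seq (k : ℕ) : eta ^ k < (seq k : ℝ) + 1 := by
  unfold seq; push_cast
  exact Nat.lt_floor_add_one _

lemma seq_pos (k : ℕ) : 1 ≤ seq k := by
  unfold seq
  have : 1 ≤ ⌊eta ^ k⌋₊ := by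
    rw [Nat.le_floor_iff (pow_nonneg eta_nonneg k)]
    push_cast
    exact one_le_pow₀ one_lt_eta.le
  exact_mod_cast this

lemma seq_mono : Monotone seq := by
  intro k l h
  unfold seq
  exact_mod_cast Nat.floor_mono (pow_le_pow_right₀ one_lt_eta.le h)

lemma eta_shift {k l : ℕ} (h : l ≤ k) : eta ^ l = eta ^ k * u ^ (k - l) := by
  have h1 : eta ^ k = eta ^ l * eta ^ (k - l) := by rw [← pow_add]; congr 1; omega
  rw [h1, mul_assoc, ← mul_pow, mul_comm eta u, u_mul, one_pow, mul_one]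

lemma seq_g2 (k l : ℕ) (h : seq l < seq k) : seq k ≤ 10 * (seq k - seq l) := by
  have hlk : l < k := by
    by_contra hcon
    have := seq_mono (not_lt.1 hcon)
    omega
  have h1 := seq_le k
  have h2 := lt_seq k
  have h3 := seq_le l
  have hs := eta_shift hlk.le
  have hu : u ^ (k - l) ≤ u := by
    calc u ^ (k - l) ≤ u ^ 1 := pow_le_pow_of_le_one u_pos.le u_lt_one.le (by omega)
      _ = u := pow_one u
  have hb := u_bounds
  have hx : 0 < eta ^ k := pow_pos eta_pos k
  have hd : (1 : ℤ) ≤ seq k - seq l := by omega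
  have hd' : (1 : ℝ) ≤ (seq k : ℝ) - seq l := by exact_mod_cast hd
  have h4 : eta ^ l ≤ eta ^ k * 0.7862 := by
    rw [hs]; apply mul_le_mul_of_nonneg_left _ hx.le; linarith
  have : (seq k : ℝ) ≤ 10 * ((seq k : ℝ) - seq l) := by
    by_cases h10 : eta ^ k ≤ 10
    · linarith
    · push Not at h10; nlinarith
  exact_mod_cast this

lemma seq_g3 (k l m : ℕ) (hl : seq l < seq k) (hm : seq m < seq k) :
    |seq k - seq l - seq m| ≤ 1 ∨ seq k ≤ 200 * |seq k - seq l - seq m| := by
  have hlk : l < k := by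
    by_contra hcon
    have := seq_mono (not_lt.1 hcon)
    omega
  have hmk : m < k := by
    by_contra hcon
    have := seq_mono (not_lt.1 hcon)
    omega
  have k1 := seq_le k
  have k2 := lt_seq k
  have l1 := seq_le l
  have l2 := lt_seq l
  have m1 := seq_le m
  have m2 := lt_seq m
  have hx : 0 < eta ^ k := pow_pos eta_pos k
  have hsum : eta ^ l + eta ^ m = eta ^ k * (u ^ (k - l) + u ^ (k - m)) := by
    rw [eta_shift hlk.le, eta_shift hmk.le]; ring
  by_cases h1 : |seq k - seq l - seq m| ≤ 1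
  · left; exact h1
  right
  push Not at h1
  by_cases h400 : seq k ≤ 400
  · omega
  push Not at h400
  have h400' : (400 : ℝ) < seq k := by exact_mod_cast h400
  have hx400 : 400 < eta ^ k := by linarith
  rcases tri (k - l) (k - m) (by omega) (by omega) with ht | ht | ht
  · have h5 : eta ^ l + eta ^ m ≤ eta ^ k * (49 / 50) := by
      rw [hsum]; exact mul_le_mul_of_nonneg_left ht hx.le
    have h6 : (seq k : ℝ) ≤ 200 * ((seq k : ℝ) - seq l - seq m) := by linarith
    have h7 : seq k ≤ 200 * (seq k - seq l - seq m) := by exact_mod_cast h6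
    exact h7.trans (by linarith [le_abs_self (seq k - seq l - seq m)])
  · have h5 : eta ^ k * (51 / 50) ≤ eta ^ l + eta ^ m := by
      rw [hsum]; exact mul_le_mul_of_nonneg_left ht hx.le
    have h6 : (seq k : ℝ) ≤ 200 * -((seq k : ℝ) - seq l - seq m) := by linarith
    have h7 : seq k ≤ 200 * -(seq k - seq l - seq m) := by exact_mod_cast h6
    exact h7.trans (by linarith [neg_le_abs (seq k - seq l - seq m)])
  · exfalso
    rw [ht, mul_one] at hsum
    have h6 : (seq k : ℝ) - seq l - seq m < 2 := by linarith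
    have h7 : (-1 : ℝ) < (seq k : ℝ) - seq l - seq m := by linarith
    have h8 : seq k - seq l - seq m < 2 := by exact_mod_cast h6
    have h9 : -1 < seq k - seq l - seq m := by exact_mod_cast h7
    have : |seq k - seq l - seq m| ≤ 1 := by rw [abs_le]; constructor <;> omega
    omega

lemma eta36 : (5000 : ℝ) < eta ^ 36 := by
  have : eta ^ 36 = (eta ^ 4) ^ 9 := by ring
  rw [this, eta_four, eta_sq]
  have hg := golden_bounds.1
  calc (5000 : ℝ) < 2.6 ^ 9 := by norm_num
    _ ≤ (goldenRatio + 1) ^ 9 := by gcongr; linarith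

lemma seq_win (k K : ℕ) (_hk : 1 ≤ k) (hkK : k ≤ K) (h : seq k = 1 ∨ seq K ≤ 1000 * seq k) :
    k ≤ 2 ∨ K < k + 36 := by
  rcases h with h | h
  · left
    by_contra hcon
    push Not at hcon
    have h1 := lt_seq k
    rw [h] at h1
    have h2 : eta ^ 3 ≤ eta ^ k := pow_le_pow_right₀ one_lt_eta.le hcon
    have h3 : (2 : ℝ) < eta ^ 3 := by
      have : eta ^ 3 = eta * eta ^ 2 := by ring
      rw [this, eta_sq]
      nlinarith [eta_bounds.1, golden_bounds.1]
    push_cast at h1
    linarith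
  · right
    by_contra hcon
    push Not at hcon
    have h1 : eta ^ (k + 36) ≤ eta ^ K := pow_le_pow_right₀ one_lt_eta.le hcon
    rw [pow_add] at h1
    have h2 := lt_seq K
    have h3 := seq_le k
    have h4 : (seq K : ℝ) ≤ 1000 * seq k := by exact_mod_cast h
    have h5 := eta36
    have h6 : 1 ≤ eta ^ k := one_le_pow₀ one_lt_eta.le
    nlinarith

lemma seq_big (s t : ℕ) (h : s + 10 ≤ t) : 3 * seq (4 * s + 6) < seq (4 * t + 2) := by
  have h1 : eta ^ (4 * s + 6 + 36) ≤ eta ^ (4 * t + 2) := pow_le_pow_right₀ one_lt_eta.le (by omega)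
  rw [pow_add] at h1
  have h2 := lt_seq (4 * t + 2)
  have h3 := seq_le (4 * s + 6)
  have h5 := eta36
  have h6 : 1 ≤ eta ^ (4 * s + 6) := one_le_pow₀ one_lt_eta.le
  have : (3 : ℝ) * seq (4 * s + 6) < seq (4 * t + 2) := by nlinarith
  exact_mod_cast this

/-- Lucas numbers -/
def luc : ℕ → ℤ
  | 0 => 2
  | 1 => 1
  | (n + 2) => luc (n + 1) + luc n

lemma luc_eq : ∀ n : ℕ, (luc n : ℝ) = goldenRatio ^ n + goldenConj ^ n
  | 0 => by simp [luc]; norm_num
  | 1 => by simp [luc]
  | (n + 2) => by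
      rw [luc]; push_cast
      rw [luc_eq (n + 1), luc_eq n]
      have h1 : goldenRatio ^ (n + 2) = goldenRatio ^ (n + 1) + goldenRatio ^ n := by
        rw [pow_add, goldenRatio_sq]; ring
      have h2 : goldenConj ^ (n + 2) = goldenConj ^ (n + 1) + goldenConj ^ n := by
        rw [pow_add, goldenConj_sq]; ring
      rw [h1, h2]; ring

lemma seq_eq {k : ℕ} {c : ℤ} (h0 : 0 ≤ c) (h1 : (c : ℝ) ≤ eta ^ k) (h2 : eta ^ k < c + 1) : seq k = c := by
  have h3 := seq_le k
  have h4 := lt_seq k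
  have h5 : (seq k : ℝ) < c + 1 := by linarith
  have h6 : (c : ℝ) < seq k + 1 := by linarith
  have h7 : seq k < c + 1 := by exact_mod_cast h5
  have h8 : c < seq k + 1 := by exact_mod_cast h6
  omega

lemma luc_pos : ∀ n : ℕ, 1 ≤ luc n
  | 0 => by simp [luc]
  | 1 => by simp [luc]
  | (n + 2) => by rw [luc]; have := luc_pos (n + 1); have := luc_pos n; omega

lemma seq_odd (n : ℕ) (hn : Odd n) : seq (2 * n) = luc n := by
  have h := luc_eq n
  have hp : eta ^ (2 * n) = goldenRatio ^ n := by rw [pow_mul, eta_sq]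
  have h1 : goldenConj ^ n < 0 := hn.pow_neg goldenConj_neg
  have h2 : -1 < goldenConj ^ n := by
    have h3 : |goldenConj ^ n| < 1 := by
      rw [abs_pow]
      apply pow_lt_one₀ (abs_nonneg _)
      · rw [abs_lt]; exact ⟨neg_one_lt_goldenConj, by linarith [goldenConj_neg]⟩
      · rintro rfl; simp at hn
    linarith [(abs_lt.1 h3).1]
  have := luc_pos n
  apply seq_eq (by omega) <;> rw [hp] <;> linarith

lemma seq_even (n : ℕ) (hn : Even n) (h0 : n ≠ 0) : seq (2 * n) = luc n - 1 := by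
  have h := luc_eq n
  have hp : eta ^ (2 * n) = goldenRatio ^ n := by rw [pow_mul, eta_sq]
  have h1 : 0 < goldenConj ^ n := hn.pow_pos goldenConj_ne_zero
  have h2 : goldenConj ^ n < 1 := by
    have h3 : |goldenConj ^ n| < 1 := by
      rw [abs_pow]
      apply pow_lt_one₀ (abs_nonneg _)
      · rw [abs_lt]; exact ⟨neg_one_lt_goldenConj, by linarith [goldenConj_neg]⟩
      · exact h0
    linarith [(abs_lt.1 h3).2]
  have := luc_pos n
  apply seq_eq (by omega) <;> rw [hp] <;> push_cast <;> linarith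

lemma seq_rel (s : ℕ) : seq (4 * s + 6) = seq (4 * s + 4) + seq (4 * s + 2) + 1 := by
  have e1 := seq_odd (2 * s + 3) ⟨s + 1, by ring⟩
  have e2 := seq_even (2 * s + 2) ⟨s + 1, by ring⟩ (by omega)
  have e3 := seq_odd (2 * s + 1) ⟨s, by ring⟩
  rw [show 4 * s + 6 = 2 * (2 * s + 3) by ring, show 4 * s + 4 = 2 * (2 * s + 2) by ring,
    show 4 * s + 2 = 2 * (2 * s + 1) by ring, e1, e2, e3]
  have : luc (2 * s + 3) = luc (2 * s + 2) + luc (2 * s + 1) := rfl
  rw [this]; ring

theorem good_seq : Good seq where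
  pos := fun k _ => seq_pos k
  mono := seq_mono
  g2 := fun k l _ _ h => seq_g2 k l h
  g3 := fun k l m _ _ _ h1 h2 => seq_g3 k l m h1 h2
  win := seq_win
  rel := seq_rel
  big := seq_big

end Pool.Agent.R945.CU
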