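import Pool.Agent.R945.CU.H
import Pool.Agent.R945.CU.I

namespace Pool.Agent.R945.CU

open Polynomial

/-- the quartic over the integers -/
noncomputable def F : ℤ[X] := X ^ 4 - X ^ 2 - 1

lemma F_monic : F.Monic := by
  unfold F; monicity!

lemma aux1 : ∀ b : ZMod 3, (-b) ^ 4 - (-b) ^ 2 - 1 ≠ 0 := by decide

lemma aux2 : ∀ a b c d : ZMod 3, b * d = -1 → a * d + b * c = 0 → b + d + a * c = -1 → a + c = 0 →
    False := by decide

lemma irr3 : Irreducible (X ^ 4 - X ^ 2 - 1 : (ZMod 3)[X]) := by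
  have : Fact (Nat.Prime 3) := ⟨by norm_num⟩
  have hm : (X ^ 4 - X ^ 2 - 1 : (ZMod 3)[X]).Monic := by monicity!
  have hd : (X ^ 4 - X ^ 2 - 1 : (ZMod 3)[X]).natDegree = 4 := by compute_degree!
  rw [hm.irreducible_iff_natDegree']
  refine ⟨?_, ?_⟩
  · intro h
    rw [h] at hd; simp at hd
  · intro f g hf hg hfg hmem
    rw [hd] at hmem
    simp only [Finset.mem_Ioc] at hmem
    have hdeg : f.natDegree + g.natDegree = 4 := by
      rw [← hf.natDegree_mul hg, hfg, hd]
    have hg12 : g.natDegree = 1 ∨ g.natDegree = 2 := by omega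
    rcases hg12 with h1 | h2
    · have hg' := hg.as_sum
      rw [h1] at hg'
      simp only [pow_one, Finset.sum_range_one, pow_zero, mul_one] at hg'
      have he := congrArg (eval (-(g.coeff 0))) hfg
      rw [eval_mul] at he
      have hz : eval (-(g.coeff 0)) g = 0 := by
        conv_lhs => rw [hg']
        simp
      rw [hz, mul_zero] at he
      simp only [eval_sub, eval_pow, eval_X, eval_one] at he
      exact aux1 _ he.symm
    · have hf2 : f.natDegree = 2 := by omega
      have hg' := hg.as_sum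
      have hf' := hf.as_sum
      rw [h2] at hg'
      rw [hf2] at hf'
      simp only [Finset.sum_range_succ, Finset.sum_range_zero, zero_add, pow_zero, mul_one, pow_one] at hg' hf'
      generalize g.coeff 0 = b at hg'
      generalize g.coeff 1 = a at hg'
      generalize f.coeff 0 = d at hf'
      generalize f.coeff 1 = c at hf'
      have hexp : f * g = X ^ 4 + C (a + c) * X ^ 3 + C (b + d + a * c) * X ^ 2 + C (a * d + b * c) * X
          + C (b * d) := by
        rw [hf', hg']; simp only [C_add, C_mul]; ring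
      rw [hexp] at hfg
      have c0 := congrArg (fun p => coeff p 0) hfg
      have c1 := congrArg (fun p => coeff p 1) hfg
      have c2 := congrArg (fun p => coeff p 2) hfg
      have c3 := congrArg (fun p => coeff p 3) hfg
      simp only [coeff_add, coeff_sub, coeff_C_mul, coeff_X_pow, coeff_X, coeff_C, coeff_one] at c0 c1 c2 c3
      norm_num at c0 c1 c2 c3
      exact aux2 a b c d c0 c1 c2 c3

lemma irrZ : Irreducible F := by
  apply F_monic.irreducible_of_irreducible_map (Int.castRingHom (ZMod 3))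
  have : F.map (Int.castRingHom (ZMod 3)) = X ^ 4 - X ^ 2 - 1 := by
    unfold F; simp
  rw [this]; exact irr3

lemma irrQ : Irreducible (X ^ 4 - X ^ 2 - 1 : ℚ[X]) := by
  have h := (F_monic.irreducible_iff_irreducible_map_fraction_map (K := ℚ)).1 irrZ
  have : F.map (algebraMap ℤ ℚ) = X ^ 4 - X ^ 2 - 1 := by
    unfold F; simp
  rwa [this] at h

lemma minpoly_eta : minpoly ℚ eta = X ^ 4 - X ^ 2 - 1 := by
  symm
  apply minpoly.eq_of_irreducible_of_monic irrQ
  · simp only [map_sub, map_pow, aeval_X, map_one]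
    rw [eta_four]; ring
  · monicity!

lemma eta_algebraic : IsAlgebraic ℚ eta := by
  refine ⟨X ^ 4 - X ^ 2 - 1, irrQ.ne_zero, ?_⟩
  simp only [map_sub, map_pow, aeval_X, map_one]
  rw [eta_four]; ring

lemma neg_eta_root : aeval (-(eta : ℂ)) (minpoly ℚ eta) = 0 := by
  rw [minpoly_eta]
  simp only [map_sub, map_pow, aeval_X, map_one]
  have h : (eta : ℂ) ^ 4 = (eta : ℂ) ^ 2 + 1 := by exact_mod_cast congrArg (fun x : ℝ => (x : ℂ)) eta_four
  have : (-(eta : ℂ)) ^ 4 - (-(eta : ℂ)) ^ 2 - 1 = (eta : ℂ) ^ 4 - (eta : ℂ) ^ 2 - 1 := by ring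
  rw [this, h]; ring

open Filter in
theorem tends : Tendsto (fun n : ℕ => cumulant 6 (cosSum seq n) / (n : ℝ)) atTop atTop := by
  obtain ⟨D, hD⟩ : ∃ D : ℤ, ∀ n m : ℕ, 8 * m + 46 ≤ n →
      6 * (m : ℤ) ^ 2 - 150 * ((n : ℤ) * D) ≤
      6 * ((NN (sval seq n) (Fin 6) : ℤ) - 15 * (NN (sval seq n) (Fin 4) : ℤ) * (NN (sval seq n) (Fin 2) : ℤ)
        - 10 * (NN (sval seq n) (Fin 3) : ℤ) ^ 2 + 30 * (NN (sval seq n) (Fin 2) : ℤ) ^ 3) :=
    ⟨76 ^ 6, fun n m h => lower good_seq h⟩
  set C : ℝ := 150 * (D : ℝ) / 384 with hC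
  have hlow : ∀ᶠ n : ℕ in atTop, (n : ℝ) * (1 / 16384) - C ≤ cumulant 6 (cosSum seq n) / (n : ℝ) := by
    filter_upwards [eventually_ge_atTop 106] with n hn
    obtain ⟨m, hm1, hm2⟩ : ∃ m : ℕ, 8 * m + 46 ≤ n ∧ n ≤ 16 * m := ⟨(n - 46) / 8, by omega, by omega⟩
    have hl := (Int.cast_le (R := ℝ)).2 (hD _ _ hm1)
    push_cast at hl
    have hcum := cumulant_six seq (fun k _ => seq_pos k) n
    have h16' : (n : ℝ) / 16 ≤ (m : ℝ) := by
      have : (n : ℝ) ≤ 16 * (m : ℝ) := by exact_mod_cast hm2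
      linarith
    have hn0 : (0 : ℝ) < n := by
      have : 0 < n := by omega
      exact_mod_cast this
    rw [le_div_iff₀ hn0, hcum]
    have hsq : ((n : ℝ) / 16) ^ 2 ≤ (m : ℝ) ^ 2 := by gcongr
    have : ((n : ℝ) * (1 / 16384) - C) * n = (6 * ((n : ℝ) / 16) ^ 2 - 150 * ((n : ℝ) * (D : ℝ))) / 384 := by
      rw [hC]; ring
    rw [this]
    linarith
  apply tendsto_atTop_mono' _ hlow
  have : Tendsto (fun n : ℕ => (n : ℝ) * (1 / 16384)) atTop atTop :=
    tendsto_natCast_atTop_atTop.atTop_mul_const (by norm_num)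
  exact tendsto_atTop_add_const_right _ (-C) this

end Pool.Agent.R945.CU
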